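import Pool.Agent.H648.Q.Defs2

/-!
# Project Q648: the `T`-inequality with two functions, real case (`S_TINR`)
-/

set_option autoImplicit false

namespace Pool.Agent.H155.Q648

open Finset Filter
open Pool.Agent.H376R2.MR
open Pool.Agent.W78.GR
open Pool.Agent.W78.GA (bg_nonneg)
open Pool.Agent.W78.GS (Pm)
open Pool.Agent.H648.Q2 (IsChi FSR S_TINR)

variable {g : ℕ → ℤ} {t c : ℤ} {A : ℕ} {χ : ℤ → ℤ} {η : (Qd t c)ˣ}

/-- the polynomial of the real function `f` -/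
noncomputable def PP (η : (Qd t c)ˣ) (Y : ℝ) (f : Qd t c → ℝ) (k : ℤ) : ℂ :=
  DPG η (pball η (Real.exp 1 * Y)) (fun z => ((f z * bg Y z : ℝ) : ℂ)) k

lemma chi_mul (hχ : IsChi A χ) (hc : (A : ℤ) ∣ c) (u z : Qd t c) :
    χ (u * z).re = χ u.re * χ z.re := by
  rw [← hχ.mul]
  apply hχ.per
  obtain ⟨d, hd⟩ := hc
  simp only [QuadraticAlgebra.re_mul]
  refine ⟨-(d * u.im * z.im), ?_⟩
  linear_combination (-(u.im * z.im)) * hd

lemma chi_one (hχ : IsChi A χ) : χ 1 = 1 := by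
  have h1 : χ 1 = 1 ∨ χ 1 = -1 := hχ.val 1 (by simp)
  have h2 := hχ.mul 1 1
  rw [mul_one] at h2
  rcases h1 with h | h
  · exact h
  · rw [h] at h2; norm_num at h2

lemma pm_one (hg : Pm g) : g 1 = 1 := by
  have h2 := hg.mul (m := 1) (n := 1) one_ne_zero one_ne_zero
  rw [mul_one] at h2
  rcases hg.val 1 with h | h
  · exact h
  · rw [h] at h2; norm_num at h2

/-- the sum over pairs in terms of the polynomials -/
lemma rsum2_eq (hg : Pm g) (U : Un t c η) (hχ : IsChi A χ) (hc : (A : ℤ) ∣ c) (Y : ℝ)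
    {u : Qd t c} (hu : tp u) (huχ : χ u.re = 1) (K : ℕ) :
    ∑ z ∈ pball η (Real.exp 1 * Y), ∑ z' ∈ pball η (Real.exp 1 * Y),
      bg Y z * bg Y z' * (((χ z.re : ℝ) ^ 2 * (χ (u * z').re : ℝ) ^ 2 +
        (χ z.re : ℝ) * (χ (u * z').re : ℝ)) *
        (1 - (g (nm z) : ℝ) * (g (nm (u * z')) : ℝ))) * Fj K (ang η z - ang η (u * z')) =
    ∑ k ∈ FK K, (1 - |(k : ℝ)| / K) * ((ps η k u).re *
      ((‖PP η Y (fun z => (χ z.re : ℝ) ^ 2) k‖ ^ 2 + ‖PP η Y (fun z => (χ z.re : ℝ)) k‖ ^ 2) -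
        (g (nm u) : ℝ) * (‖PP η Y (fun z => (g (nm z) : ℝ) * (χ z.re : ℝ) ^ 2) k‖ ^ 2 +
          ‖PP η Y (fun z => (g (nm z) : ℝ) * (χ z.re : ℝ)) k‖ ^ 2))) := by
  set s := pball η (Real.exp 1 * Y) with hs
  have hs0 : ∀ z ∈ s, tp z := fun z hz => pball_tp U hz
  have h1 := dsum_eq U s hs0 (fun z => (χ z.re : ℝ) ^ 2 * bg Y z)
    (fun z => (χ z.re : ℝ) ^ 2 * bg Y z) hu K
  have h2 := dsum_eq U s hs0 (fun z => (χ z.re : ℝ) * bg Y z) (fun z => (χ z.re : ℝ) * bg Y z) hu K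
  have h3 := dsum_eq U s hs0 (fun z => ((g (nm z) : ℝ) * (χ z.re : ℝ) ^ 2) * bg Y z)
    (fun z => ((g (nm z) : ℝ) * (χ z.re : ℝ) ^ 2) * bg Y z) hu K
  have h4 := dsum_eq U s hs0 (fun z => ((g (nm z) : ℝ) * (χ z.re : ℝ)) * bg Y z)
    (fun z => ((g (nm z) : ℝ) * (χ z.re : ℝ)) * bg Y z) hu K
  have h5 : ∑ z ∈ s, ∑ z' ∈ s,
      bg Y z * bg Y z' * (((χ z.re : ℝ) ^ 2 * (χ (u * z').re : ℝ) ^ 2 +
        (χ z.re : ℝ) * (χ (u * z').re : ℝ)) *
        (1 - (g (nm z) : ℝ) * (g (nm (u * z')) : ℝ))) * Fj K (ang η z - ang η (u * z')) =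
      ∑ z ∈ s, ∑ z' ∈ s, ((χ z.re : ℝ) ^ 2 * bg Y z) * ((χ z'.re : ℝ) ^ 2 * bg Y z') *
        Fj K (ang η z - ang η (u * z')) +
      ∑ z ∈ s, ∑ z' ∈ s, ((χ z.re : ℝ) * bg Y z) * ((χ z'.re : ℝ) * bg Y z') *
        Fj K (ang η z - ang η (u * z')) -
      (g (nm u) : ℝ) * (∑ z ∈ s, ∑ z' ∈ s, (((g (nm z) : ℝ) * (χ z.re : ℝ) ^ 2) * bg Y z) *
          (((g (nm z') : ℝ) * (χ z'.re : ℝ) ^ 2) * bg Y z') * Fj K (ang η z - ang η (u * z')) +
        ∑ z ∈ s, ∑ z' ∈ s, (((g (nm z) : ℝ) * (χ z.re : ℝ)) * bg Y z) *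
          (((g (nm z') : ℝ) * (χ z'.re : ℝ)) * bg Y z') * Fj K (ang η z - ang η (u * z'))) := by
    rw [← sum_add_distrib, ← sum_add_distrib, mul_sum, ← sum_sub_distrib]
    refine sum_congr rfl fun z hz => ?_
    rw [← sum_add_distrib, ← sum_add_distrib, mul_sum, ← sum_sub_distrib]
    refine sum_congr rfl fun z' hz' => ?_
    rw [nm_mul, hg.mul (nm_pos U.disc hu).ne' (nm_pos U.disc (hs0 z' hz')).ne',
      chi_mul hχ hc u z', huχ, one_mul]
    push_cast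
    ring
  rw [h5, h1, h2, h3, h4, ← sum_add_distrib, ← sum_add_distrib, mul_sum, ← sum_sub_distrib]
  refine sum_congr rfl fun k _ => ?_
  have h6 : ∀ D : ℂ, (D * (starRingEnd ℂ) D * (starRingEnd ℂ) (ps η k u)).re =
      (ps η k u).re * ‖D‖ ^ 2 := by
    intro D
    rw [Complex.mul_conj, Complex.normSq_eq_norm_sq, Complex.re_ofReal_mul, Complex.conj_re]
    ring
  rw [h6, h6, h6, h6]
  unfold PP
  ring

/-- the sum over pairs, upper bound -/
lemma rsum2_le (hg : Pm g) (U : Un t c η) (hχ : IsChi A χ) (hc : (A : ℤ) ∣ c) {Y : ℝ}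
    (hY : 0 < Y) {u : Qd t c} (huχ : χ u.re = 1) (K : ℕ) :
    ∑ z ∈ pball η (Real.exp 1 * Y), ∑ z' ∈ pball η (Real.exp 1 * Y),
      bg Y z * bg Y z' * (((χ z.re : ℝ) ^ 2 * (χ (u * z').re : ℝ) ^ 2 +
        (χ z.re : ℝ) * (χ (u * z').re : ℝ)) *
        (1 - (g (nm z) : ℝ) * (g (nm (u * z')) : ℝ))) * Fj K (ang η z - ang η (u * z')) ≤
    4 * (Real.exp 1 / Y) ^ 2 * FSR g A χ η u K (Real.exp 1 * Y) := by
  classical
  have hFS : FSR g A χ η u K (Real.exp 1 * Y) =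
      ∑ z ∈ pball η (Real.exp 1 * Y), ∑ z' ∈ pball η (Real.exp 1 * Y),
        (if Int.gcd z.re A = 1 then (if Int.gcd z'.re A = 1 then
          (if g (nm z) ≠ g (nm (u * z')) ∧ χ z.re = χ (u * z').re then
            Fj K (ang η z - ang η (u * z')) else 0) else 0) else 0) := by
    unfold FSR Pool.Agent.H648.Q2.R.UR
    rw [sum_filter]
    refine sum_congr rfl fun z _ => ?_
    by_cases h : Int.gcd z.re A = 1
    · simp only [if_pos h]
      rw [sum_filter]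
    · simp only [if_neg h, sum_const_zero]
  rw [hFS, mul_sum]
  refine sum_le_sum fun z hz => ?_
  rw [mul_sum]
  refine sum_le_sum fun z' hz' => ?_
  have hF := Fj_nonneg K (ang η z - ang η (u * z'))
  have ha := bg_le' U.disc hY (pball_tp U hz)
  have hb := bg_le' U.disc hY (pball_tp U hz')
  have ha0 := bg_nonneg Y z
  have hb0 := bg_nonneg Y z'
  have hab : bg Y z * bg Y z' ≤ (Real.exp 1 / Y) ^ 2 := by
    rw [pow_two]
    exact mul_le_mul ha hb hb0 (ha0.trans ha)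
  have hab0 : 0 ≤ bg Y z * bg Y z' := mul_nonneg ha0 hb0
  have hχu : χ (u * z').re = χ z'.re := by rw [chi_mul hχ hc, huχ, one_mul]
  by_cases h : Int.gcd z.re A = 1
  swap
  · rw [if_neg h, hχ.zero _ h]
    simp
  rw [if_pos h]
  by_cases h' : Int.gcd z'.re A = 1
  swap
  · rw [if_neg h', hχu, hχ.zero _ h']
    simp
  rw [if_pos h', hχu]
  have hx : (χ z.re : ℝ) = 1 ∨ (χ z.re : ℝ) = -1 := by
    rcases hχ.val _ h with h1 | h1
    · left; rw [h1]; norm_num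
    · right; rw [h1]; norm_num
  have hx' : (χ z'.re : ℝ) = 1 ∨ (χ z'.re : ℝ) = -1 := by
    rcases hχ.val _ h' with h1 | h1
    · left; rw [h1]; norm_num
    · right; rw [h1]; norm_num
  have hy : (g (nm z) : ℝ) = 1 ∨ (g (nm z) : ℝ) = -1 := by
    rcases hg.val (nm z) with h1 | h1
    · left; rw [h1]; norm_num
    · right; rw [h1]; norm_num
  have hy' : (g (nm (u * z')) : ℝ) = 1 ∨ (g (nm (u * z')) : ℝ) = -1 := by
    rcases hg.val (nm (u * z')) with h1 | h1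
    · left; rw [h1]; norm_num
    · right; rw [h1]; norm_num
  by_cases h2 : g (nm z) ≠ g (nm (u * z')) ∧ χ z.re = χ z'.re
  · rw [if_pos h2]
    have h3 : (g (nm z) : ℝ) * (g (nm (u * z')) : ℝ) = -1 := by
      have h4 : (g (nm z) : ℝ) ≠ (g (nm (u * z')) : ℝ) := by exact_mod_cast h2.1
      rcases hy with e1 | e1 <;> rcases hy' with e2 | e2
      · exact absurd (e1.trans e2.symm) h4
      · rw [e1, e2]; norm_num
      · rw [e1, e2]; norm_num
      · exact absurd (e1.trans e2.symm) h4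
    have h5 : (χ z.re : ℝ) = (χ z'.re : ℝ) := by exact_mod_cast h2.2
    have h6 : ((χ z.re : ℝ) ^ 2 * (χ z'.re : ℝ) ^ 2 + (χ z.re : ℝ) * (χ z'.re : ℝ)) *
        (1 - (g (nm z) : ℝ) * (g (nm (u * z')) : ℝ)) = 4 := by
      rw [h3, h5]
      rcases hx' with e | e <;> rw [e] <;> norm_num
    rw [h6]
    have := mul_le_mul_of_nonneg_right hab hF
    nlinarith
  · rw [if_neg h2, mul_zero]
    refine le_of_eq ?_
    have h6 : ((χ z.re : ℝ) ^ 2 * (χ z'.re : ℝ) ^ 2 + (χ z.re : ℝ) * (χ z'.re : ℝ)) *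
        (1 - (g (nm z) : ℝ) * (g (nm (u * z')) : ℝ)) = 0 := by
      by_cases h7 : g (nm z) = g (nm (u * z'))
      · have h8 : (g (nm z) : ℝ) = (g (nm (u * z')) : ℝ) := by exact_mod_cast h7
        rw [h8]
        rcases hy' with e | e <;> rw [e] <;> norm_num
      · have h8 : ¬ χ z.re = χ z'.re := fun h9 => h2 ⟨h7, h9⟩
        have h9 : (χ z.re : ℝ) ≠ (χ z'.re : ℝ) := by exact_mod_cast h8
        have h10 : (χ z.re : ℝ) * (χ z'.re : ℝ) = -1 := by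
          rcases hx with e1 | e1 <;> rcases hx' with e2 | e2
          · exact absurd (e1.trans e2.symm) h9
          · rw [e1, e2]; norm_num
          · rw [e1, e2]; norm_num
          · exact absurd (e1.trans e2.symm) h9
        have h11 : (χ z.re : ℝ) ^ 2 * (χ z'.re : ℝ) ^ 2 = 1 := by
          rw [← mul_pow, h10]; norm_num
        rw [h10, h11]
        norm_num
    rw [h6]
    ring

/-- lower bound -/
lemma low_bound2 (hg : Pm g) {u : Qd t c} (hgu : g (nm u) = -1) {K : ℕ} (hKn : 1 ≤ K)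
    (a b : ℤ → ℝ) (ha : ∀ k, 0 ≤ a k) (hb : ∀ k, 0 ≤ b k) :
    2 * a 0 ≤ ∑ k ∈ FK K, (1 - |(k : ℝ)| / K) * ((ps η k (1 : Qd t c)).re *
      (a k - (g (nm (1 : Qd t c)) : ℝ) * b k)) +
      ∑ k ∈ FK K, (1 - |(k : ℝ)| / K) * ((ps η k u).re * (a k - (g (nm u) : ℝ) * b k)) +
      2 * ∑ k ∈ (FK K).erase 0, b k := by
  have hKpos : (0 : ℝ) < K := by exact_mod_cast hKn
  have h1g : g (nm (1 : Qd t c)) = 1 := by rw [nm_one, pm_one hg]
  rw [← sum_add_distrib]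
  have h0 : (0 : ℤ) ∈ FK K := by
    rw [FK, Finset.mem_Ioo]
    omega
  rw [← Finset.add_sum_erase _ _ h0, mul_sum, add_assoc, ← sum_add_distrib]
  have h1 : (1 - |((0 : ℤ) : ℝ)| / K) * ((ps η 0 (1 : Qd t c)).re *
    (a 0 - (g (nm (1 : Qd t c)) : ℝ) * b 0)) +
    (1 - |((0 : ℤ) : ℝ)| / K) * ((ps η 0 u).re * (a 0 - (g (nm u) : ℝ) * b 0)) = 2 * a 0 := by
    rw [h1g, hgu, ps_zero, ps_zero]
    simp
    ring
  rw [h1]
  refine le_add_of_nonneg_right (sum_nonneg fun k hk => ?_)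
  rw [mem_erase, FK, Finset.mem_Ioo] at hk
  have hw0 : 0 ≤ 1 - |(k : ℝ)| / K := by
    rw [sub_nonneg, div_le_one hKpos]
    rw [abs_le]
    constructor
    · have : ((-(K : ℤ) : ℤ) : ℝ) < (k : ℝ) := by exact_mod_cast hk.2.1
      push_cast at this
      linarith
    · have : (k : ℝ) < ((K : ℤ) : ℝ) := by exact_mod_cast hk.2.2
      push_cast at this
      linarith
  have hw1 : 1 - |(k : ℝ)| / K ≤ 1 := by
    have : 0 ≤ |(k : ℝ)| / K := by positivity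
    linarith
  have hps1 : ps η k (1 : Qd t c) = 1 := ps_one k
  have hc1 : (ps η k u).re ≤ 1 := by
    have := (Complex.abs_re_le_norm (ps η k u)).trans (norm_ps k _).le
    exact (abs_le.1 this).2
  have hc2 : -1 ≤ (ps η k u).re := by
    have := (Complex.abs_re_le_norm (ps η k u)).trans (norm_ps k _).le
    exact (abs_le.1 this).1
  rw [h1g, hgu, hps1]
  push_cast
  rw [Complex.one_re]
  set γ := (ps η k u).re
  set W := 1 - |(k : ℝ)| / K
  have hA := ha k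
  have hB := hb k
  have e : W * (1 * (a k - 1 * b k)) + W * (γ * (a k - -1 * b k)) + 2 * b k =
      W * (1 + γ) * a k + (W * (1 + γ) + 2 * (1 - W)) * b k := by
    ring
  rw [e]
  have : 0 ≤ W * (1 + γ) := mul_nonneg hw0 (by linarith)
  have : 0 ≤ W * (1 + γ) + 2 * (1 - W) := by linarith
  positivity

/-- **TINR** -/
theorem tinr (hg : Pm g) (U : Un t c η) (hA : 1 ≤ A) (hc : (A : ℤ) ∣ c) : S_TINR g A χ η := by
  classical
  intro hχ u hu hgu huχ Y K hY hK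
  have h1re : χ (1 : Qd t c).re = 1 := by
    rw [QuadraticAlgebra.re_one]; exact chi_one hχ
  have e1 := (rsum2_eq hg U hχ hc Y tp_one h1re K).symm.le.trans
    (rsum2_le hg U hχ hc hY h1re K)
  have e2 := (rsum2_eq hg U hχ hc Y hu huχ K).symm.le.trans
    (rsum2_le hg U hχ hc hY huχ K)
  have e3 := low_bound2 (η := η) hg hgu hK
    (fun k => ‖PP η Y (fun z => (χ z.re : ℝ) ^ 2) k‖ ^ 2 + ‖PP η Y (fun z => (χ z.re : ℝ)) k‖ ^ 2)
    (fun k => ‖PP η Y (fun z => (g (nm z) : ℝ) * (χ z.re : ℝ) ^ 2) k‖ ^ 2 +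
      ‖PP η Y (fun z => (g (nm z) : ℝ) * (χ z.re : ℝ)) k‖ ^ 2)
    (fun k => by positivity) (fun k => by positivity)
  have e4 : PP η Y (fun z => (χ z.re : ℝ) ^ 2) 0 =
      ((∑ z ∈ Pool.Agent.H648.Q2.R.UR η A (Real.exp 1 * Y), bg Y z : ℝ) : ℂ) := by
    unfold PP DPG Pool.Agent.H648.Q2.R.UR
    rw [sum_filter]
    push_cast
    refine sum_congr rfl fun z _ => ?_
    rw [ps_zero, mul_one]
    by_cases h : Int.gcd z.re A = 1
    · rw [if_pos h]
      rcases hχ.val _ h with h1 | h1 <;> rw [h1] <;> simp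
    · rw [if_neg h, hχ.zero _ h]; simp
  have e5 : ‖PP η Y (fun z => (χ z.re : ℝ) ^ 2) 0‖ ^ 2 =
      (∑ z ∈ Pool.Agent.H648.Q2.R.UR η A (Real.exp 1 * Y), bg Y z) ^ 2 := by
    rw [e4, Complex.norm_real, Real.norm_eq_abs, sq_abs]
  have e6 : ∀ k : ℤ, PP η Y (fun z => (g (nm z) : ℝ) * (χ z.re : ℝ) ^ 2) k =
      Pool.Agent.H648.Q2.R.GG η (fun z => g (nm z) * χ z.re ^ 2) Y k := by
    intro k
    unfold PP Pool.Agent.H648.Q2.R.GG
    congr 1
    funext z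
    push_cast
    rfl
  have e7 : ∀ k : ℤ, PP η Y (fun z => (g (nm z) : ℝ) * (χ z.re : ℝ)) k =
      Pool.Agent.H648.Q2.R.GG η (fun z => g (nm z) * χ z.re) Y k := by
    intro k
    unfold PP Pool.Agent.H648.Q2.R.GG
    congr 1
    funext z
    push_cast
    rfl
  simp only [e6, e7] at e1 e2 e3
  rw [e5] at e3
  rw [sum_add_distrib] at e3
  have e8 : 0 ≤ ‖PP η Y (fun z => (χ z.re : ℝ)) 0‖ ^ 2 := by positivity
  linarith

end Pool.Agent.H155.Q648
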